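import Pool.Agent.V11268.PerRank
import Pool.Agent.H297R2.Density

set_option autoImplicit false

/-!
# The numbers `n ^ (t ^ b)` for `t = π` and `t = e`, with integers `n` and rational `b`

`InP γ x`: the logarithm of the positive real number `x` is a linear combination, with algebraic
coefficients, of logarithms of algebraic numbers, of integrals of rational functions of one
variable with algebraic coefficients over compact intervals with algebraic end points, and of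
the `g` arbitrary complex numbers `γ 0, ..., γ (g - 1)` (`Forms γ` of the starting library).

`Mg g` is the smaller one of `2 g + 2` and `g + 2 √g + 2`, so `Mg 0 = 2`.
-/

namespace Pool.Agent.Results.MP_ee2255_nt.GeometricExponents

open Pool.Agent.TH379.PER (Forms)
open V11268.PerG
open scoped Pointwise

lemma primes {S : Finset ℕ} (hS : ∀ p ∈ S, p.Prime) :
    (∀ j : Fin S.card, IsAlgebraic ℚ (Complex.exp ((Real.log (S.equivFin.symm j : ℕ) : ℝ) : ℂ))) ∧
      LinearIndependent ℚ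
        (fun j : Fin S.card => ((Real.log (S.equivFin.symm j : ℕ) : ℝ) : ℂ)) := by
  constructor
  · intro j
    have hp := (hS _ (S.equivFin.symm j).2).pos
    rw [← Complex.ofReal_exp, Real.exp_log (by exact_mod_cast hp)]
    exact_mod_cast isAlgebraic_algebraMap (R := ℚ) (A := ℂ) ((S.equivFin.symm j : ℕ) : ℚ)
  · exact Pool.Agent.H297R2.linearIndependent_log_prime
      (fun j : Fin S.card => (S.equivFin.symm j : ℕ)) (fun j => hS _ (S.equivFin.symm j).2)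
      (fun a b hab => S.equivFin.symm.injective (Subtype.ext hab))

lemma primes_few {g : ℕ} (γ : Fin g → ℂ) {θ : ℝ} (hθ : Transcendental ℚ (θ : ℂ)) {S : Finset ℕ}
    (hS : ∀ p ∈ S, p.Prime) (h : ∀ p ∈ S, InP γ ((p : ℝ) ^ θ)) :
    S.card ≤ g + 2 ∧ ((θ : ℂ) ∈ Forms γ → S.card ≤ g + 1) := by
  obtain ⟨h1, h2⟩ := primes hS
  have h3 : ∀ j : Fin S.card,
      (θ : ℂ) * ((Real.log (S.equivFin.symm j : ℕ) : ℝ) : ℂ) ∈ Forms γ := by
    intro j
    have hp := (hS _ (S.equivFin.symm j).2).pos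
    have h4 := (inP_rpow γ (by exact_mod_cast hp) θ).mp (h _ (S.equivFin.symm j).2)
    rw [mul_comm] at h4
    exact h4
  exact ⟨bases_few γ hθ _ h1 h2 h3, fun hm => bases_few' γ hθ hm _ h1 h2 h3⟩

theorem result (g : ℕ) (γ : Fin g → ℂ) :
    (∀ t : ℝ, t = Real.pi ∨ t = Real.exp 1 →
      -- (1) at most `g + 2` primes for one exponent
      (∀ b : ℚ, b ≠ 0 → ∀ S : Finset ℕ,
        (∀ p ∈ S, p.Prime ∧ InP γ ((p : ℝ) ^ (t ^ (b : ℝ)))) →
        S.card ≤ g + 2 ∧ (((t ^ (b : ℝ) : ℝ) : ℂ) ∈ Forms γ → S.card ≤ g + 1)) ∧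
      ∀ n : ℕ, 2 ≤ n →
        -- (2) few exponents with a given difference for one integer
        (∀ h : ℚ, h ≠ 0 →
          {b : ℚ | InP γ ((n : ℝ) ^ (t ^ (b : ℝ))) ∧
            InP γ ((n : ℝ) ^ (t ^ ((b + h : ℚ) : ℝ)))}.Finite ∧
          ({b : ℚ | InP γ ((n : ℝ) ^ (t ^ (b : ℝ))) ∧
            InP γ ((n : ℝ) ^ (t ^ ((b + h : ℚ) : ℝ)))}.ncard : ℝ) ≤ Mg g) ∧
        -- (3) finite sets of exponents
        (∀ B X : Finset ℚ, X.Nonempty →
          ({b : ℚ | b ∈ B ∧ InP γ ((n : ℝ) ^ (t ^ (b : ℝ)))}.ncard : ℝ) ^ 2 * X.card ≤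
            (B + X).card * ({b : ℚ | b ∈ B ∧ InP γ ((n : ℝ) ^ (t ^ (b : ℝ)))}.ncard +
              Mg g * (X.card - 1))) ∧
        -- (4) arithmetic progressions of exponents
        (∀ a h : ℚ, h ≠ 0 → ∀ N : ℕ,
          ({k : ℕ | 1 ≤ k ∧ k ≤ N ∧
            InP γ ((n : ℝ) ^ (t ^ ((a + k * h : ℚ) : ℝ)))}.ncard : ℝ) ≤
            Real.sqrt (Mg g * N) + Real.sqrt (Real.sqrt (Mg g * N)) + 1)) ∧
    -- (5) `p ^ π`
    (∀ S : Finset ℕ, (∀ p ∈ S, p.Prime ∧ InP γ ((p : ℝ) ^ Real.pi)) → S.card ≤ g + 1) ∧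
    -- (6) the integers `n` with algebraic `n ^ (t ^ k)`
    (∀ t : ℝ, t = Real.pi ∨ t = Real.exp 1 → ∀ n : ℕ, 2 ≤ n → ∀ N : ℕ,
      ({k : ℕ | 1 ≤ k ∧ k ≤ N ∧ IsAlgebraic ℚ ((n : ℝ) ^ (t ^ (k : ℝ)))}.ncard : ℝ) ≤
        Real.sqrt (2 * N) + Real.sqrt (Real.sqrt (2 * N)) + 1) := by
  have hpi : Transcendental ℚ (Real.pi : ℂ) := Pool.Agent.H340R2.LW.transcendental_pi_complex
  have he : Transcendental ℚ ((Real.exp 1 : ℝ) : ℂ) := by
    rw [Complex.ofReal_exp, Complex.ofReal_one]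
    exact exp_transc isAlgebraic_one one_ne_zero
  have hall : ∀ t : ℝ, t = Real.pi ∨ t = Real.exp 1 → 0 < t ∧ Transcendental ℚ (t : ℂ) := by
    rintro t (rfl | rfl)
    · exact ⟨Real.pi_pos, hpi⟩
    · exact ⟨Real.exp_pos 1, he⟩
  have hn : ∀ n : ℕ, 2 ≤ n → 0 < (n : ℝ) ∧ (n : ℝ) ≠ 1 := by
    intro n hn
    have h2 : (2 : ℝ) ≤ n := by exact_mod_cast hn
    exact ⟨by linarith, by linarith⟩
  refine ⟨?_, ?_, ?_⟩
  · intro t ht
    obtain ⟨h0, htr⟩ := hall t ht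
    refine ⟨?_, ?_⟩
    · intro b hb S hS
      exact primes_few γ (rat_transc h0 htr hb) (fun p hp => (hS p hp).1) (fun p hp => (hS p hp).2)
    · intro n h2
      obtain ⟨hc, hc1⟩ := hn n h2
      exact ⟨fun h hh => tower_few γ h0 htr hc hc1 hh,
        fun B X hX => tower_energy γ h0 htr hc hc1 B X hX,
        fun a h hh N => tower_ap γ h0 htr hc hc1 a hh N⟩
  · intro S hS
    exact (primes_few γ hpi (fun p hp => (hS p hp).1) (fun p hp => (hS p hp).2)).2 (pi_mem γ)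
  · intro t ht n h2 N
    obtain ⟨h0, htr⟩ := hall t ht
    obtain ⟨hc, hc1⟩ := hn n h2
    exact tower_alg h0 htr hc hc1 N

end Pool.Agent.Results.MP_ee2255_nt.GeometricExponents
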