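import Pool.Agent.Helper264.NT.NearR
import Pool.Agent.H327R2.SC.ExpPoly

/-!
# Irrational powers of all algebraic numbers near almost every point

The question is whether `n ^ π` or `n ^ e` is rational for some integer `n ≥ 2`.

Let `β` be a real irrational number, for example `π` or `e`. There is one set `E` of complex numbers of Hausdorff dimension `0`
such that for all complex `z ≠ 0` outside of `E`, all number fields `K ⊂ ℂ`, all degrees `d`, all `A`, `R` and ALL exponents
`w > 0` (arbitrarily small) there are `B` and `T₀` such that for all `T ≥ T₀`, at ALL numbers `a` in `K` of height at most `T`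
with `|a - z| ≤ T ^ (-w)`, for all logarithms `ℓ` of `a` with `|ℓ| ≤ R`, the three numbers `π, ℓ, a ^ β = e ^ (β ℓ)` have no
relation over `K` of partial degrees at most `d` and height at most `T ^ A`, not even an approximate one: all values are
greater than `T ^ (-B)`. In particular `a ^ β` is not rational and not algebraic of degree at most `d` and height at most
`T ^ A` over `K(π, log a)`. For `w < 1` there are many such rational numbers `a` for all large `T`. The result below is for
several exponents `β_1, …, β_r` (with `1, β_1, …, β_r` linearly independent over `ℚ`) and several bases `a_1, …, a_n`, outside of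
a set in `ℂ ^ n` of dimension at most `2 n - 2`.

Proof: the exceptional tuples lie on `C T ^ ε` hypersurfaces of degree at most `D` (`Pool.Agent.Y771.KF.stdK` of helper771 and
helper124), and the points near such hypersurfaces form a set of small dimension (uniform coverings of the zeros of polynomials
of bounded degree, `Pool.Agent.Helper264.NT.mainK`). The functions `t, log t, t ^ β_1, …, t ^ β_r` are algebraically independent
because exponential polynomials with different frequencies are linearly independent (`expPoly_indep` of helper327).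
-/

set_option autoImplicit false

open Height Filter Topology
open scoped ENNReal

namespace Pool.Agent.Results.MP_ee2255_nt.PowersNearEveryPoint

/-- evaluation after splitting off one variable -/
lemma eval_right {S : Type} (P : MvPolynomial (Option S) ℂ) (y : ℂ) (v : S → ℂ) :
    MvPolynomial.eval₂ (Polynomial.evalRingHom y) v (MvPolynomial.optionEquivRight ℂ S P) =
      MvPolynomial.eval (fun o : Option S => o.elim y v) P := by
  induction P using MvPolynomial.induction_on with
  | C a =>
    rw [MvPolynomial.optionEquivRight_C, MvPolynomial.eval₂_C, MvPolynomial.eval_C]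
    simp
  | add P Q hP hQ => rw [map_add, MvPolynomial.eval₂_add, hP, hQ, map_add]
  | mul_X P i hP =>
    have h1 : MvPolynomial.eval₂ (Polynomial.evalRingHom y) v
        (MvPolynomial.optionEquivRight ℂ S (MvPolynomial.X i)) = (i.elim y v : ℂ) := by
      cases i with
      | none =>
        rw [MvPolynomial.optionEquivRight_X_none, MvPolynomial.eval₂_C]
        simp
      | some i =>
        rw [MvPolynomial.optionEquivRight_X_some, MvPolynomial.eval₂_X]
        rfl
    rw [map_mul, MvPolynomial.eval₂_mul, hP, h1, map_mul, MvPolynomial.eval_X]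

/-- exponential polynomials with linearly independent real frequencies -/
lemma exp_indep {r : ℕ} (β : Fin r → ℝ) (hβ : LinearIndependent ℚ (fun o : Option (Fin r) => o.elim (1 : ℝ) β))
    (P : MvPolynomial (Option (Option (Fin r))) ℂ)
    (h : ∀ m : ℕ, MvPolynomial.eval (fun o : Option (Option (Fin r)) => o.elim (m : ℂ) fun q =>
      Complex.exp (((q.elim (1 : ℝ) β : ℝ) : ℂ) * m)) P = 0) : P = 0 := by
  classical
  set b : Option (Fin r) → ℝ := fun o => o.elim (1 : ℝ) β with hb
  set p := MvPolynomial.optionEquivRight ℂ (Option (Fin r)) P with hp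
  let lam : (Option (Fin r) →₀ ℕ) → ℂ := fun e => ((Real.exp (∑ o, (e o : ℝ) * b o) : ℝ) : ℂ)
  have hinj : Function.Injective lam := by
    intro e e' hee
    have h1 : ∑ o, (e o : ℝ) * b o = ∑ o, (e' o : ℝ) * b o := Real.exp_injective (Complex.ofReal_injective hee)
    have h2 : ∑ o, ((e o : ℚ) - (e' o : ℚ)) • b o = 0 := by
      have : ∀ o, ((e o : ℚ) - (e' o : ℚ)) • b o = (e o : ℝ) * b o - (e' o : ℝ) * b o := by
        intro o
        rw [Rat.smul_def]
        push_cast
        ring
      simp only [this, Finset.sum_sub_distrib, h1, sub_self]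
    have h3 := Fintype.linearIndependent_iff.1 hβ _ h2
    ext o
    have h4 := h3 o
    have h5 : (e o : ℚ) = e' o := by linarith
    exact_mod_cast h5
  have hkey := Pool.Agent.H327R2.SC.expPoly_indep p.support lam hinj
    (fun e => by
      simp only [lam]
      exact Complex.ofReal_ne_zero.2 (Real.exp_pos _).ne') (fun e => p.coeff e) (by
      intro m
      have h1 := h m
      rw [← eval_right P (m : ℂ) fun q => Complex.exp (((b q : ℝ) : ℂ) * m), ← hp, MvPolynomial.eval₂_eq'] at h1
      rw [← h1]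
      refine Finset.sum_congr rfl fun e _ => ?_
      congr 1
      simp only [lam]
      rw [Complex.ofReal_exp, ← Complex.exp_nat_mul]
      have h2 : ∀ o, Complex.exp (((b o : ℝ) : ℂ) * m) ^ (e o) = Complex.exp ((e o : ℂ) * (((b o : ℝ) : ℂ) * m)) :=
        fun o => (Complex.exp_nat_mul _ _).symm
      simp only [h2]
      rw [← Complex.exp_sum]
      congr 1
      push_cast
      rw [Finset.mul_sum]
      exact Finset.sum_congr rfl fun o _ => by ring)
  have hp0 : p = 0 := by
    by_contra hne
    obtain ⟨e, he⟩ := MvPolynomial.support_nonempty.2 hne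
    exact (MvPolynomial.mem_support_iff.1 he) (hkey e he)
  exact (map_eq_zero_iff _ (MvPolynomial.optionEquivRight ℂ (Option (Fin r))).injective).1 hp0

lemma sgn_sq (c : ℤ) : ((-1 : ℂ) ^ c) * (-1) ^ c = 1 := by
  rcases Int.even_or_odd c with h | h
  · rw [h.neg_one_zpow, mul_one]
  · rw [h.neg_one_zpow]
    norm_num

lemma sgn_ne (c : ℤ) : ((-1 : ℂ) ^ c) ≠ 0 := fun h => by
  have := sgn_sq c
  rw [h, mul_zero] at this
  exact zero_ne_one this

/-- an analytic branch of the logarithm -/
noncomputable def L (c : ℤ) (t : ℂ) : ℂ := Complex.log ((-1) ^ c * t) + c * (Real.pi * Complex.I)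

/-- its domain -/
def dom (c : ℤ) : Set ℂ := {t | (-1) ^ c * t ∈ Complex.slitPlane}

lemma dom_open (c : ℤ) : IsOpen (dom c) := Complex.isOpen_slitPlane.preimage (continuous_const.mul continuous_id)

lemma dom_preconn (c : ℤ) : IsPreconnected (dom c) := by
  have h1 : dom c = (fun t : ℂ => (-1) ^ c * t) '' Complex.slitPlane := by
    ext t
    constructor
    · intro h
      refine ⟨_, h, ?_⟩
      change (-1) ^ c * ((-1) ^ c * t) = t
      rw [← mul_assoc, sgn_sq, one_mul]
    · rintro ⟨s, hs, rfl⟩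
      change (-1) ^ c * ((-1) ^ c * s) ∈ Complex.slitPlane
      rwa [← mul_assoc, sgn_sq, one_mul]
  rw [h1]
  have h2 : IsPreconnected Complex.slitPlane :=
    (Complex.starConvex_one_slitPlane.isPathConnected Complex.one_mem_slitPlane).isConnected.isPreconnected
  exact h2.image _ (continuous_const.mul continuous_id).continuousOn

lemma dom_nonempty (c : ℤ) : (dom c).Nonempty := ⟨(-1) ^ c, by
  change (-1) ^ c * (-1) ^ c ∈ Complex.slitPlane
  rw [sgn_sq]
  exact Complex.one_mem_slitPlane⟩

lemma L_an (c : ℤ) : AnalyticOnNhd ℂ (L c) (dom c) := fun _ ht =>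
  ((analyticAt_const.mul analyticAt_id).clog ht).add analyticAt_const

lemma L_exp (c : ℤ) {t : ℂ} (ht : t ∈ dom c) : Complex.exp (L c t) = t := by
  rw [L, Complex.exp_add, Complex.exp_log (Complex.slitPlane_ne_zero ht), Complex.exp_int_mul, Complex.exp_pi_mul_I]
  rw [mul_comm ((-1 : ℂ) ^ c) t, mul_assoc, sgn_sq, mul_one]

/-- the functions `log t`, `t ^ β_1, …, t ^ β_r`, for the branch `c` of the logarithm -/
noncomputable def fam {r : ℕ} (β : Fin r → ℝ) (c : ℤ) (q : Option (Fin r)) (t : ℂ) : ℂ :=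
  q.elim (L c t) fun i => Complex.exp ((β i : ℂ) * L c t)

lemma fam_an {r : ℕ} (β : Fin r → ℝ) (c : ℤ) (q : Option (Fin r)) : AnalyticOnNhd ℂ (fam β c q) (dom c) := by
  cases q with
  | none => exact L_an c
  | some i => exact fun t ht => (analyticAt_const.mul (L_an c t ht)).cexp

lemma fam_indep {r : ℕ} (β : Fin r → ℝ) (hβ : LinearIndependent ℚ (fun o : Option (Fin r) => o.elim (1 : ℝ) β))
    (c : ℤ) : Pool.Agent.Y771.KF.AIndepS (fam β c) (dom c) := by
  classical
  intro P hP
  let w : ℂ → Option (Option (Fin r)) → ℂ := fun y o => o.elim (Complex.exp y) fun q => q.elim y fun i =>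
    Complex.exp ((β i : ℂ) * y)
  set F : ℂ → ℂ := fun y => MvPolynomial.aeval (w y) P with hF
  have hFa : AnalyticOnNhd ℂ F Set.univ := by
    refine AnalyticOnNhd.aeval_mvPolynomial (fun o => ?_) P
    rcases o with _ | _ | i
    · exact fun u _ => analyticAt_cexp
    · exact fun u _ => analyticAt_id
    · exact fun u _ => (analyticAt_const.mul analyticAt_id).cexp
  obtain ⟨t0, ht0⟩ := dom_nonempty c
  have hzero : ∀ t ∈ dom c, F (L c t) = 0 := by
    intro t ht
    have h1 := hP t ht
    rw [hF]
    simp only [MvPolynomial.aeval_eq_eval]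
    rw [← h1]
    have h2 : w (L c t) = fun o : Option (Option (Fin r)) => o.elim t fun q => fam β c q t := by
      funext o
      rcases o with _ | _ | i
      · exact L_exp c ht
      · rfl
      · rfl
    rw [h2]
  have htend : Tendsto (L c) (𝓝[≠] t0) (𝓝[≠] (L c t0)) := by
    refine tendsto_nhdsWithin_of_tendsto_nhds_of_eventually_within _
      ((L_an c t0 ht0).continuousAt.tendsto.mono_left nhdsWithin_le_nhds) ?_
    filter_upwards [self_mem_nhdsWithin, nhdsWithin_le_nhds ((dom_open c).mem_nhds ht0)] with t h1 h2 h3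
    apply h1
    change L c t = L c t0 at h3
    change t = t0
    rw [← L_exp c h2, h3, L_exp c ht0]
  have hfreq : ∃ᶠ y in 𝓝[≠] (L c t0), F y = 0 := by
    refine htend.frequently (Eventually.frequently ?_)
    filter_upwards [nhdsWithin_le_nhds ((dom_open c).mem_nhds ht0)] with t h2
    exact hzero t h2
  have hall : ∀ y, F y = 0 := fun y =>
    hFa.eqOn_zero_of_preconnected_of_frequently_eq_zero isPreconnected_univ (Set.mem_univ _) hfreq (Set.mem_univ y)
  let e : Option (Option (Fin r)) → Option (Option (Fin r)) := fun o =>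
    o.elim (some none) fun q => q.elim none fun i => some (some i)
  have hee : ∀ o, e (e o) = o := by
    rintro (_ | _ | i) <;> rfl
  have he : Function.Injective e := fun a b hab => by rw [← hee a, hab, hee b]
  have h5 := exp_indep β hβ (MvPolynomial.rename e P) (by
    intro m
    rw [MvPolynomial.eval_rename]
    have h6 := hall (m : ℂ)
    rw [hF] at h6
    simp only [MvPolynomial.aeval_eq_eval] at h6
    have h7 : ((fun o : Option (Option (Fin r)) => o.elim (m : ℂ) fun q =>
        Complex.exp (((q.elim (1 : ℝ) β : ℝ) : ℂ) * m)) ∘ e) = w m := by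
      funext o
      rcases o with _ | _ | i
      · simp [e, w]
      · rfl
      · rfl
    rw [h7]
    exact h6)
  exact MvPolynomial.rename_injective e he (by rw [h5, map_zero])

/-- the numbers `π`, `ℓ_j` and `e ^ (β_i ℓ_j)` (the values of the powers `a_j ^ β_i` which belong to the logarithms `ℓ_j`) -/
noncomputable def numbers {n r : ℕ} (β : Fin r → ℝ) (l : Fin n → ℂ) (x : Option (Fin n × Option (Fin r))) : ℂ :=
  x.elim (Real.pi : ℂ) fun c => c.2.elim (l c.1) fun i => Complex.exp ((β i : ℂ) * l c.1)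

/-- every nonzero polynomial in `n (r + 1) + 1` variables with coefficients in `K` of height at most `T ^ A`, of degree at most
`d` in each variable, takes at the numbers `π, ℓ_j, e ^ (β_i ℓ_j)` a value of absolute value greater than `T ^ (-B)` -/
def Measure {n r : ℕ} (β : Fin r → ℝ) (K : IntermediateField ℚ ℂ) [NumberField K] (d : ℕ) (A B T : ℝ)
    (l : Fin n → ℂ) : Prop :=
  ∀ P : MvPolynomial (Option (Fin n × Option (Fin r))) K, P ≠ 0 → (∀ i, P.degreeOf i ≤ d) →
    (∀ s, mulHeight₁ (P.coeff s) ≤ T ^ A) → T ^ (-B) < ‖MvPolynomial.eval₂ (algebraMap K ℂ) (numbers β l) P‖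

lemma dom_cover {z : ℂ} (hz : z ≠ 0) : ∃ c : ℤ, (c = 0 ∨ c = 1) ∧ z ∈ dom c := by
  by_cases h : z ∈ Complex.slitPlane
  · exact ⟨0, Or.inl rfl, by simpa [dom] using h⟩
  · refine ⟨1, Or.inr rfl, ?_⟩
    rw [Complex.mem_slitPlane_iff] at h
    push Not at h
    change (-1 : ℂ) ^ (1 : ℤ) * z ∈ Complex.slitPlane
    rw [zpow_one, neg_one_mul, Complex.mem_slitPlane_iff]
    left
    rw [Complex.neg_re]
    have h1 : z.re ≠ 0 := fun h1 => hz (Complex.ext h1 h.2)
    have h2 := lt_of_le_of_ne h.1 h1
    linarith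

lemma sgn_add (c m : ℤ) : (-1 : ℂ) ^ (c + 2 * m) = (-1) ^ c := by
  rw [zpow_add₀ (by norm_num), zpow_mul]
  norm_num

lemma dom_add (c m : ℤ) : dom (c + 2 * m) = dom c := by
  unfold dom
  rw [sgn_add]

/-- **Theorem.** Let `n ≥ 1` and let `β_1, …, β_r` be real numbers such that `1, β_1, …, β_r` are linearly independent over `ℚ`
(`r = 1`: `β_1` irrational, for example `π` or `e`). There is a subset `E` of `ℂ ^ n` of Hausdorff dimension at most
`2 (n - 1)` such that for all `z` outside of `E` with `z_j ≠ 0`, all number fields `K ⊂ ℂ`, all `d`, `A`, `R` and `w > 0` there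
are `B` and `T₀` such that for all `T ≥ T₀`, all `n`-tuples `a` of elements of `K` of height at most `T` with
`|a_j - z_j| ≤ T ^ (-w)` and all logarithms `ℓ_j` of the `a_j` of absolute value at most `R`: the numbers `π, ℓ_j`,
`a_j ^ β_i = e ^ (β_i ℓ_j)` have the property `Measure`. -/
theorem result (n : ℕ) (hn : 1 ≤ n) {r : ℕ} (β : Fin r → ℝ)
    (hβ : LinearIndependent ℚ (fun o : Option (Fin r) => o.elim (1 : ℝ) β)) :
    ∃ E : Set (Fin n → ℂ), dimH E ≤ ((2 * (n - 1) : ℕ) : ℝ≥0∞) ∧ ∀ z ∉ E, (∀ j, z j ≠ 0) →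
      ∀ (K : IntermediateField ℚ ℂ) [NumberField K] (d : ℕ) (A R w : ℝ), 0 < w → ∃ B T₀ : ℝ, ∀ T ≥ T₀,
        ∀ (a : Fin n → K) (l : Fin n → ℂ), (∀ j, mulHeight₁ (a j) ≤ T ∧ ‖(a j : ℂ) - z j‖ ≤ T ^ (-w)) →
          (∀ j, Complex.exp (l j) = (a j : ℂ) ∧ ‖l j‖ ≤ R) → Measure β K d A B T l := by
  classical
  have hnn : Nonempty (Fin n) := ⟨⟨0, hn⟩⟩
  have hmain := fun c : Fin n → ℤ => Pool.Agent.Helper264.NT.mainC (X := Fin n) (κ := Option (Fin r))
    (fun x q => fam β (c x) q) (fun x => dom (c x)) (fun x => dom_open _)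
    (fun x => dom_preconn _) (fun x q => fam_an _ _ _) (fun x => fam_indep β hβ _)
  choose E hE1 hE2 using hmain
  refine ⟨⋃ c, E c, ?_, ?_⟩
  · rw [dimH_iUnion]
    exact iSup_le fun c => by simpa using hE1 c
  intro z hz hz0 K _ d A R w hw
  choose ε hε1 hε2 using fun j => dom_cover (hz0 j)
  have hz' : ∀ m : Fin n → ℤ, ∃ B T0 : ℝ, ∀ T ≥ T0, ∀ t : Fin n → K,
      (∀ x, mulHeight₁ (t x) ≤ T ∧ ‖(t x : ℂ) - z x‖ ≤ T ^ (-w)) →
        Pool.Agent.Helper264.NT.NoRelK (algebraMap K ℂ) (fun o : Option (Fin n × Option (Fin r)) =>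
          o.elim (Real.pi : ℂ) fun c => fam β (ε c.1 + 2 * m c.1) c.2 (t c.1)) d A B T := by
    intro m
    obtain ⟨B, T0, h⟩ := hE2 (fun x => ε x + 2 * m x) z (fun h => hz (Set.mem_iUnion.2 ⟨_, h⟩))
      (fun x => by rw [dom_add]; exact hε2 x) K d A w hw
    exact ⟨B, T0, fun T hT t ht => (h T hT t ht).2⟩
  choose B T0 hB using hz'
  obtain ⟨M, hM⟩ := exists_nat_ge (R + 2)
  set S : Finset (Fin n → ℤ) := Fintype.piFinset fun _ => Finset.Icc (-(M : ℤ)) M with hS
  have hnear : ∀ᶠ T : ℝ in atTop, ∀ j, ∀ x : ℂ, ‖x - z j‖ ≤ T ^ (-w) → x ∈ dom (ε j) := by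
    rw [eventually_all]
    intro j
    obtain ⟨δ, hδ, hball⟩ := Metric.isOpen_iff.1 (dom_open (ε j)) (z j) (hε2 j)
    filter_upwards [(tendsto_rpow_neg_atTop hw).eventually (gt_mem_nhds hδ)] with T hT x hx
    refine hball ?_
    rw [Metric.mem_ball, dist_eq_norm]
    exact lt_of_le_of_lt hx hT
  obtain ⟨T1, hT1⟩ := eventually_atTop.1 hnear
  refine ⟨∑ m ∈ S, |B m|, max (max 1 T1) (∑ m ∈ S, |T0 m|), fun T hT a l ha hl => ?_⟩
  have hT1' : 1 ≤ T := le_trans (le_trans (le_max_left _ _) (le_max_left _ _)) hT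
  have hT2 : T1 ≤ T := le_trans (le_trans (le_max_right _ _) (le_max_left _ _)) hT
  have hT3 : ∑ m ∈ S, |T0 m| ≤ T := le_trans (le_max_right _ _) hT
  have hdom : ∀ j, (a j : ℂ) ∈ dom (ε j) := fun j => hT1 T hT2 j _ (ha j).2
  have hm : ∀ j, ∃ m : ℤ, l j = L (ε j + 2 * m) (a j) ∧ m ∈ Finset.Icc (-(M : ℤ)) M := by
    intro j
    have h1 : Complex.exp (l j) = Complex.exp (L (ε j) (a j)) := by rw [(hl j).1, L_exp _ (hdom j)]
    obtain ⟨m, hm⟩ := Complex.exp_eq_exp_iff_exists_int.1 h1
    have h2 : l j = L (ε j + 2 * m) (a j) := by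
      rw [hm]
      unfold L
      rw [sgn_add]
      push_cast
      ring
    refine ⟨m, h2, ?_⟩
    have h3 : (l j).im = (Complex.log ((-1) ^ (ε j + 2 * m) * (a j : ℂ))).im + ((ε j + 2 * m : ℤ) : ℝ) * Real.pi := by
      rw [h2]
      unfold L
      simp [Complex.mul_im]
    have h4 := Complex.abs_arg_le_pi ((-1) ^ (ε j + 2 * m) * (a j : ℂ))
    rw [Complex.log_im] at h3
    have h5 := (Complex.abs_im_le_norm (l j)).trans (hl j).2
    have h6 : |((ε j + 2 * m : ℤ) : ℝ)| * Real.pi ≤ R + Real.pi := by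
      have h7 : ((ε j + 2 * m : ℤ) : ℝ) * Real.pi = (l j).im - Complex.arg ((-1) ^ (ε j + 2 * m) * (a j : ℂ)) := by
        rw [h3]
        ring
      rw [← abs_of_pos Real.pi_pos, ← abs_mul, abs_of_pos Real.pi_pos, h7]
      exact (abs_sub _ _).trans (add_le_add h5 h4)
    have hR0 : 0 ≤ R := (norm_nonneg _).trans (hl j).2
    have h8 : |((ε j + 2 * m : ℤ) : ℝ)| ≤ R + 1 := by
      by_contra h9
      rw [not_le] at h9
      have h10 : (R + 1) * Real.pi < |((ε j + 2 * m : ℤ) : ℝ)| * Real.pi := mul_lt_mul_of_pos_right h9 Real.pi_pos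
      have h11 : R ≤ R * Real.pi := le_mul_of_one_le_right hR0 (by linarith [Real.pi_gt_three])
      nlinarith
    have h12 : |((ε j + 2 * m : ℤ) : ℝ)| ≤ (M : ℝ) - 1 := by linarith
    have h13 : |ε j + 2 * m| ≤ (M : ℤ) - 1 := by
      have : ((|ε j + 2 * m| : ℤ) : ℝ) ≤ (((M : ℤ) - 1 : ℤ) : ℝ) := by
        push_cast
        push_cast at h12
        exact h12
      exact_mod_cast this
    rw [abs_le] at h13
    rw [Finset.mem_Icc]
    rcases hε1 j with h | h <;> rw [h] at h13 <;> constructor <;> omega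
  choose m hml hmM using hm
  have hmS : m ∈ S := by
    rw [hS, Fintype.mem_piFinset]
    exact hmM
  intro P hP hd hc
  have hBm : B m ≤ ∑ m ∈ S, |B m| :=
    (le_abs_self _).trans (Finset.single_le_sum (f := fun m => |B m|) (fun _ _ => abs_nonneg _) hmS)
  have hTm : T0 m ≤ T :=
    ((le_abs_self _).trans (Finset.single_le_sum (f := fun m => |T0 m|) (fun _ _ => abs_nonneg _) hmS)).trans hT3
  have h1 := hB m T hTm a ha P hP hd hc
  have h2 : (fun o : Option (Fin n × Option (Fin r)) =>
      o.elim (Real.pi : ℂ) fun c => fam β (ε c.1 + 2 * m c.1) c.2 (a c.1 : ℂ)) = numbers β l := by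
    funext o
    rcases o with _ | ⟨j, _ | i⟩
    · rfl
    · exact (hml j).symm
    · change Complex.exp ((β i : ℂ) * L (ε j + 2 * m j) (a j)) = Complex.exp ((β i : ℂ) * l j)
      rw [← hml j]
  rw [← h2]
  exact lt_of_le_of_lt (Real.rpow_le_rpow_of_exponent_le hT1' (by linarith)) h1

end Pool.Agent.Results.MP_ee2255_nt.PowersNearEveryPoint
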