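import Pool.Agent.V11252.NP.Basic

set_option autoImplicit false

/-!
# MP_ee2255_nt: the integers `n` for which `n ^ π` or `n ^ e` is rational

`LogForms` is the space of all linear combinations, with algebraic coefficients, of `1` and of
logarithms of algebraic numbers; `InP t` says that `t > 0` and `log t ∈ LogForms`, i.e.
`t = e ^ γ α₁ ^ β₁ ⋯ αₖ ^ βₖ` with algebraic `γ`, `αᵢ`, `βᵢ`.  All rational, and all algebraic,
positive numbers have this property.

The proofs use the strong six exponentials theorem of Roy (library: helper301, helper335) with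
`1 ∈ LogForms` and `π ∈ LogForms` as additional entries.
-/

namespace Pool.Agent.Results.MP_ee2255_nt.PowersOfOneInteger

/-- The linear combinations, with algebraic coefficients, of `1` and of logarithms of algebraic
numbers. -/
noncomputable def LogForms : Submodule (algebraicClosure ℚ ℂ) ℂ :=
  Submodule.span (algebraicClosure ℚ ℂ) ({1} ∪ {z : ℂ | IsAlgebraic ℚ (Complex.exp z)})

/-- `t > 0` and `log t` is in `LogForms`. -/
def InP (t : ℝ) : Prop := 0 < t ∧ ((Real.log t : ℝ) : ℂ) ∈ LogForms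

/-- Multiplicative independence. -/
def MInd {r : ℕ} (α : Fin r → ℝ) : Prop := ∀ k : Fin r → ℤ, ∏ i, α i ^ k i = 1 → k = 0

/-- The set is empty or consists of the powers `n₁, n₁ ^ 2, n₁ ^ 3, …` of one integer `n₁ ≥ 2`. -/
def PowersOfOne (S : Set ℕ) : Prop :=
  S = ∅ ∨ ∃ n₁ : ℕ, 2 ≤ n₁ ∧ S = {n | ∃ k : ℕ, 1 ≤ k ∧ n = n₁ ^ k}

/-- For the exponent `b`: each of the sets of the integers `n ≥ 2` for which `n ^ b` is rational,
algebraic, has the property `InP`, is empty or consists of the powers of one integer. -/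
def ThreeSets (b : ℝ) : Prop :=
  PowersOfOne {n : ℕ | 2 ≤ n ∧ ∃ q : ℚ, (n : ℝ) ^ b = q} ∧
  PowersOfOne {n : ℕ | 2 ≤ n ∧ IsAlgebraic ℚ ((n : ℝ) ^ b)} ∧
  PowersOfOne {n : ℕ | 2 ≤ n ∧ InP ((n : ℝ) ^ b)}

/-- Among any `r` multiplicatively independent positive algebraic numbers `α i` there is one for
which `α i ^ b` does not have the property `InP`. -/
def Excl (r : ℕ) (b : ℝ) : Prop :=
  ∀ α : Fin r → ℝ, (∀ i, 0 < α i) → (∀ i, IsAlgebraic ℚ (α i)) → MInd α → ∃ i, ¬ InP (α i ^ b)

open Pool.Agent.H301R2.SSE Pool.Agent.H340R2 Pool.Agent.H462R2.PiE Pool.Agent.H137R5.Tow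

theorem inP_iff (t : ℝ) : InP t ↔ Pool.Agent.V11252.NP.InP t := Iff.rfl

open Classical in
/-- **Main result.**
(1) The exponent `π`.  Of two multiplicatively independent positive algebraic numbers at least one
has a `π`-th power without the property `InP`.  The set of the integers `n ≥ 2` for which `n ^ π` is
rational is empty or consists of the powers of one integer, and so is the set of those for which
`n ^ π` is algebraic, and of those for which it has the property `InP`; so at most `log₂ N` of the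
integers `2 ≤ n ≤ N` have a rational `n ^ π`.
(2) The exponent `e`.  The same for three numbers; at most `(log₂ N + 1) ^ 2` of the integers
`2 ≤ n ≤ N` have an `e`-th power with the property `InP`, in particular a rational one.
(3) If `e (u + v π) ∈ LogForms` for some algebraic `u`, `v`, not both zero, in particular if one of
`π + e`, `π e`, `e ^ e` is algebraic, then the statements (1) hold for the exponent `e`.
(4) For every positive algebraic `α ≠ 1`, one of `e ^ (π²)`, `α ^ π`, `α ^ (π²)` and one of `e ^ e`,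
`e ^ (e²)`, `α ^ e`, `α ^ (e²)` does not have the property `InP`.
(5) A positive number `t` without the property `InP` is transcendental, and so are `e ^ γ t ^ δ` for
algebraic `γ` and algebraic `δ ≠ 0`. -/
theorem result :
    (Excl 2 Real.pi ∧ ThreeSets Real.pi ∧
      ∀ N : ℕ, ((Finset.Icc 2 N).filter (fun n : ℕ => InP ((n : ℝ) ^ Real.pi))).card ≤
        Nat.log 2 N) ∧
    (Excl 3 (Real.exp 1) ∧
      ∀ N : ℕ, ((Finset.Icc 2 N).filter (fun n : ℕ => InP ((n : ℝ) ^ Real.exp 1))).card ≤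
        (Nat.log 2 N + 1) ^ 2) ∧
    ((∀ u v : ℂ, IsAlgebraic ℚ u → IsAlgebraic ℚ v → (u ≠ 0 ∨ v ≠ 0) →
        ((Real.exp 1 : ℝ) : ℂ) * (u + v * (Real.pi : ℂ)) ∈ LogForms →
          Excl 2 (Real.exp 1) ∧ ThreeSets (Real.exp 1)) ∧
      (IsAlgebraic ℚ (Real.pi + Real.exp 1) ∨ IsAlgebraic ℚ (Real.pi * Real.exp 1) ∨
        IsAlgebraic ℚ (Real.exp (Real.exp 1)) →
          Excl 2 (Real.exp 1) ∧ ThreeSets (Real.exp 1))) ∧
    (∀ α : ℝ, 0 < α → IsAlgebraic ℚ α → α ≠ 1 →
      (¬ InP (Real.exp (Real.pi ^ 2)) ∨ ¬ InP (α ^ Real.pi) ∨ ¬ InP (α ^ (Real.pi ^ 2))) ∧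
      (¬ InP (Real.exp (Real.exp 1)) ∨ ¬ InP (Real.exp (Real.exp 1 ^ 2)) ∨
        ¬ InP (α ^ Real.exp 1) ∨ ¬ InP (α ^ (Real.exp 1 ^ 2)))) ∧
    (∀ t : ℝ, 0 < t → ¬ InP t → Transcendental ℚ t ∧
      ∀ γ δ : ℂ, IsAlgebraic ℚ γ → IsAlgebraic ℚ δ → δ ≠ 0 →
        Transcendental ℚ (Complex.exp (γ + δ * ((Real.log t : ℝ) : ℂ)))) := by
  have hpi := LW.transcendental_pi
  have he := LW.transcendental_exp_one
  have hx : Excl 2 Real.pi := by
    intro α hα ha hi
    refine Pool.Agent.V11252.NP.two_excl Real.pi hpi 1 0 isAlgebraic_one isAlgebraic_zero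
      (Or.inl one_ne_zero) ?_ α hα ha hi
    rw [zero_mul, add_zero, mul_one]
    exact pi_mem
  have hset : ∀ b : ℝ, Excl 2 b → ThreeSets b := fun b hb =>
    Pool.Agent.V11252.NP.three_sets b hb
  have hgen : ∀ u v : ℂ, IsAlgebraic ℚ u → IsAlgebraic ℚ v → (u ≠ 0 ∨ v ≠ 0) →
        ((Real.exp 1 : ℝ) : ℂ) * (u + v * (Real.pi : ℂ)) ∈ LogForms →
          Excl 2 (Real.exp 1) ∧ ThreeSets (Real.exp 1) := by
    intro u v hu hv huv h
    have h1 : Excl 2 (Real.exp 1) := fun α hα ha hi =>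
      Pool.Agent.V11252.NP.two_excl (Real.exp 1) he u v hu hv huv h α hα ha hi
    exact ⟨h1, hset _ h1⟩
  have hmem : ((Real.exp 1 : ℝ) : ℂ) ∈ Lt → Excl 2 (Real.exp 1) ∧ ThreeSets (Real.exp 1) := by
    intro h
    refine hgen 1 0 isAlgebraic_one isAlgebraic_zero (Or.inl one_ne_zero) ?_
    rw [zero_mul, add_zero, mul_one]
    exact h
  refine ⟨⟨hx, hset _ hx, fun N => ?_⟩, ⟨?_, fun N => ?_⟩, ⟨hgen, ?_⟩, ?_, ?_⟩
  · exact Pool.Agent.V11252.NP.card_powers _ (hset _ hx).2.2 N _ fun n hn h => ⟨hn, h⟩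
  · intro α hα ha hi
    exact Pool.Agent.V11252.NP.three_excl (Real.exp 1) he α hα ha hi
  · refine le_trans (Finset.card_le_card ?_) (baseCount (Real.exp 1) he N)
    intro n hn
    rw [Finset.mem_filter] at hn ⊢
    exact ⟨hn.1, hn.2.2⟩
  · rintro (h | h | h)
    · apply hmem
      have h1 : ((Real.exp 1 : ℝ) : ℂ) = ((Real.pi + Real.exp 1 : ℝ) : ℂ) - ((Real.pi : ℝ) : ℂ) := by
        push_cast
        ring
      rw [h1]
      exact Lt.sub_mem (Lt_alg (alg_ofReal h)) pi_mem
    · refine hgen 0 1 isAlgebraic_zero isAlgebraic_one (Or.inr one_ne_zero) ?_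
      have h1 : ((Real.exp 1 : ℝ) : ℂ) * (0 + 1 * (Real.pi : ℂ)) =
          ((Real.pi * Real.exp 1 : ℝ) : ℂ) := by
        push_cast
        ring
      rw [h1]
      exact Lt_alg (alg_ofReal h)
    · exact hmem (lt_of h)
  · intro α hα ha h1
    constructor
    · by_contra hcon
      push Not at hcon
      refine Pool.Agent.V11252.NP.squares Real.pi hpi hα ha h1 ⟨Real.exp_pos _, ?_⟩ hcon.1
        hcon.2.1 hcon.2.2
      rw [Real.log_exp]
      exact pi_mem
    · by_contra hcon
      push Not at hcon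
      exact Pool.Agent.V11252.NP.squares (Real.exp 1) he hα ha h1 hcon.1 hcon.2.1 hcon.2.2.1
        hcon.2.2.2
  · intro t ht hn
    have hf : Free t := by
      by_contra hf
      exact hn ⟨ht, bad_of_not_free hf⟩
    exact ⟨free_tr ht hf, fun γ δ hγ hδ hδ0 => free_pow hf γ δ hγ hδ hδ0⟩

end Pool.Agent.Results.MP_ee2255_nt.PowersOfOneInteger
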