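import Mathlib
import Pool.Agent.V11015.FS.Mult
import Pool.Agent.TH456.TM.Close
import Pool.Agent.TH456.TM.E
import Pool.Agent.W472.AC.EMeas2

/-!
# Finite-state prediction of the digits of `n ^ e P(e)` and `n ^ π P(π)`

A machine with finitely many states reads the digits of a number in some base one after the other and
announces before each digit a guess, which depends on its state only.

Let `t` be any real number with `δ ≤ |t| ≤ T`, for example `t = k ^ e`, and let `P`, `P'` be integer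
polynomials of degree at most `n` and height at most `H`, not proportional, and `1 ≤ d, d' ≤ H`. Machines
with `S`, `S'` states which read the digits of `t P(e) / d` in base `b` and those of `t P'(e) / d'` in base
`b'` make on the first `N` and `N'` digits together at least
`(log min (N log b, N' log b') - log (S log b + S' log b' + log H)) / log (2 (n + 1 + η)) - C` wrong
guesses, where `C` depends only on `n, η, δ, T`. So at every scale the polynomials `P` for which
`k ^ e P(e) / d` is well predicted for some `d` are proportional to one of them. The same holds for `π`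
in place of `e`, with another base of the logarithm. If `k ^ e` (or `k ^ π`) is rational this
polynomial is `P = 1` at every scale.
-/

set_option autoImplicit false

namespace Pool.Agent.Results.MP_ee2255_nt.PredictionOfMultiples

open Finset Polynomial Pool.Agent

/-- the `i`-th digit of `x` after the point in base `b` -/
noncomputable def digit (b : ℕ) (x : ℝ) (i : ℕ) : ℤ := ⌊x * (b : ℝ) ^ i⌋ % (b : ℤ)

/-- A machine with the set of states `Q`: the transition function, the guess announced in each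
state, and the initial state. -/
structure Machine (Q : Type) where
  next : Q → ℤ → Q
  guess : Q → ℤ
  start : Q

/-- The state of the machine after it has read the first `i` digits of `x` in base `b`. -/
noncomputable def Machine.state {Q : Type} (M : Machine Q) (b : ℕ) (x : ℝ) : ℕ → Q
  | 0 => M.start
  | i + 1 => M.next (M.state b x i) (digit b x (i + 1))

/-- The number of the wrong guesses for the first `n` digits of `x` in base `b`: the guess for the
digit number `i + 1` is announced when the machine has read the first `i` digits. -/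
noncomputable def Machine.errors {Q : Type} (M : Machine Q) (b : ℕ) (x : ℝ) (n : ℕ) : ℕ :=
  ((range n).filter (fun i => M.guess (M.state b x i) ≠ digit b x (i + 1))).card

theorem state_eq {Q : Type} (M : Machine Q) (b : ℕ) (x : ℝ) (i : ℕ) :
    M.state b x i = V60.FSP.st M.next (V60.FSP.dg b x) M.start 0 i := by
  induction i with
  | zero => rfl
  | succ i ih =>
    rw [V60.FSP.st_step, ← ih, Nat.zero_add]
    rfl

theorem errors_eq {Q : Type} [Fintype Q] (M : Machine Q) (b : ℕ) (x : ℝ) (n : ℕ) :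
    M.errors b x n = V60.FSP.err M.next M.guess (V60.FSP.dg b x) M.start 0 n := by
  unfold Machine.errors V60.FSP.err
  congr 1
  apply Finset.filter_congr
  intro i _
  rw [state_eq, Nat.zero_add]
  rfl

/-- `P` is an integer polynomial of degree at most `n` with coefficients of absolute value at most `H`,
and `1 ≤ d ≤ H` -/
def Small (n : ℕ) (H : ℝ) (P : ℤ[X]) (d : ℕ) : Prop :=
  P.natDegree ≤ n ∧ (∀ i, |(P.coeff i : ℝ)| ≤ H) ∧ 1 ≤ d ∧ (d : ℝ) ≤ H

/-- the polynomials are proportional -/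
def Parallel (P P' : ℤ[X]) : Prop := ∃ u v : ℤ, (u ≠ 0 ∨ v ≠ 0) ∧ C u * P = C v * P'

/-- the number `t P(θ) / d` -/
noncomputable def multiple (θ t : ℝ) (P : ℤ[X]) (d : ℕ) : ℝ := t * aeval θ P / d

/-- The bound for the errors: if machines with `S` and `S'` states read the digits of `t P(θ) / d` in base
`b` and of `t P'(θ) / d'` in base `b'`, for polynomials `P, P'` that are not proportional, then they make
on the first `N` and `N'` digits together at least
`(log min (N log b, N' log b') - log (S log b + S' log b' + log H)) / log μ - A` wrong guesses. -/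
def Bound (n : ℕ) (μ A θ t : ℝ) : Prop :=
  ∀ (P P' : ℤ[X]) (d d' : ℕ) (H : ℝ), 1 ≤ H → Small n H P d → Small n H P' d' → ¬ Parallel P P' →
    ∀ b b' : ℕ, 2 ≤ b → 2 ≤ b' →
    ∀ (Q Q' : Type) [Fintype Q] [Fintype Q'] (M : Machine Q) (M' : Machine Q') (N N' : ℕ),
    1 ≤ N → 1 ≤ N' →
    (Real.log (min (N * Real.log b) (N' * Real.log b')) -
      Real.log (Fintype.card Q * Real.log b + Fintype.card Q' * Real.log b' + Real.log H)) /
      Real.log μ - A ≤
      (M.errors b (multiple θ t P d) N + M'.errors b' (multiple θ t P' d') N' : ℝ)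

/-- In some base `b` some machine with `S` states, `S log b ≤ σ`, makes less than `E` errors on the
first `N` digits of `x` for some `N` with `N log b ≥ Λ`. -/
def Predicted (x Λ σ E : ℝ) : Prop :=
  ∃ (b : ℕ) (Q : Type) (_ : Fintype Q) (M : Machine Q) (N : ℕ),
    2 ≤ b ∧ Λ ≤ N * Real.log b ∧ Fintype.card Q * Real.log b ≤ σ ∧ (M.errors b x N : ℝ) < E

/-- the threshold -/
noncomputable def threshold (μ A H Λ σ : ℝ) : ℝ :=
  ((Real.log Λ - Real.log (2 * σ + Real.log H)) / Real.log μ - A) / 2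

theorem bound_of_meas {θ : ℝ} {n : ℕ} {μ c : ℝ} (hμ : 0 ≤ μ) (hc : 0 < c)
    (hθ : V11015.FS.PMeas θ n μ c) (δ T : ℝ) (hδ : 0 < δ) (hT : 0 ≤ T) : ∃ A : ℝ,
    ∀ t : ℝ, δ ≤ |t| → |t| ≤ T → Bound n (2 * (μ + 1)) A θ t := by
  obtain ⟨K, hK, h⟩ := V11015.FS.mult_core hμ hc hθ δ T hδ hT
  obtain ⟨A, _, hA⟩ := V11015.FS.shape_two (μ + 1) K (by linarith) (by linarith) hK
  refine ⟨A, fun t ht htT P P' d d' H hH hP hP' hpar b b' hb hb' Q Q' _ _ M M' N N' hN hN' => ?_⟩
  rw [errors_eq, errors_eq]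
  refine hA (multiple θ t P d) (multiple θ t P' d') H hH ?_ b b' hb hb' Q Q' M.next M.guess M.start
    M'.next M'.guess M'.start N N' hN hN'
  intro q q' p p' hq hq' S h1 h2
  have h3 := h t ht htT H hH P P' ⟨hP.1, hP.2.1⟩ ⟨hP'.1, hP'.2.1⟩ (fun u v huv => by
    by_contra hne
    exact hpar ⟨u, v, by tauto, huv⟩) d d' hP.2.2.1 hP'.2.2.1 hP.2.2.2 hP'.2.2.2 q q' q' q (q * q') p p'
    hq hq' hq' hq rfl (mul_comm _ _) S h1 h2
  push_cast at h3
  exact h3

theorem parallel_of_predicted {n : ℕ} {μ A θ t : ℝ} (hμ : 1 < μ) (h : Bound n μ A θ t) {H Λ σ : ℝ}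
    (hH : 1 ≤ H) (hΛ : 0 < Λ) {P P' : ℤ[X]} {d d' : ℕ} (hP : Small n H P d) (hP' : Small n H P' d')
    (hp : Predicted (multiple θ t P d) Λ σ (threshold μ A H Λ σ))
    (hq : Predicted (multiple θ t P' d') Λ σ (threshold μ A H Λ σ)) : Parallel P P' := by
  by_contra hpar
  obtain ⟨b, Q, inst, M, N, hb, hN, hS, hM⟩ := hp
  obtain ⟨b', Q', inst', M', N', hb', hN', hS', hM'⟩ := hq
  have hlb := V11015.FS.log_base_pos hb
  have hlb' := V11015.FS.log_base_pos hb'
  have hlμ := Real.log_pos hμ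
  have hlH : 0 ≤ Real.log H := Real.log_nonneg hH
  have hN1 : 1 ≤ N := by
    rcases Nat.eq_zero_or_pos N with h | h
    · rw [h, Nat.cast_zero, zero_mul] at hN
      linarith
    · exact h
  have hN1' : 1 ≤ N' := by
    rcases Nat.eq_zero_or_pos N' with h | h
    · rw [h, Nat.cast_zero, zero_mul] at hN'
      linarith
    · exact h
  have : Nonempty Q := ⟨M.start⟩
  have hSp : (0 : ℝ) < Fintype.card Q := by exact_mod_cast Fintype.card_pos (α := Q)
  have hSp' : (0 : ℝ) ≤ Fintype.card Q' := Nat.cast_nonneg _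
  have h1 := h P P' d d' H hH hP hP' hpar b b' hb hb' Q Q' M M' N N' hN1 hN1'
  have h2 : Real.log Λ ≤ Real.log (min (N * Real.log b) (N' * Real.log b')) :=
    Real.log_le_log hΛ (le_min hN hN')
  have h3 : Real.log (Fintype.card Q * Real.log b + Fintype.card Q' * Real.log b' + Real.log H) ≤
      Real.log (2 * σ + Real.log H) := by
    apply Real.log_le_log
    · have := mul_nonneg hSp' hlb'.le
      have := mul_pos hSp hlb
      linarith
    · linarith
  have h4 : (Real.log Λ - Real.log (2 * σ + Real.log H)) / Real.log μ ≤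
      (Real.log (min (N * Real.log b) (N' * Real.log b')) -
      Real.log (Fintype.card Q * Real.log b + Fintype.card Q' * Real.log b' + Real.log H)) /
      Real.log μ := div_le_div_of_nonneg_right (by linarith) hlμ.le
  unfold threshold at hM hM'
  linarith

theorem meas_pi (n : ℕ) : ∃ μ c : ℝ, 0 ≤ μ ∧ 0 < c ∧ V11015.FS.PMeas Real.pi n μ c := by
  obtain ⟨κ, c, hκ, hc, h⟩ := TH456.TM.measT_pi n
  refine ⟨κ, c, hκ, hc, fun P hP hPn H hH hPH => ?_⟩
  rw [TH456.TM.abs_aeval]
  exact h P hP hPn H hH hPH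

/-- the bounds for one family and their consequence for the well predicted members -/
theorem family {θ : ℝ} {n : ℕ} {μ c : ℝ} (hμ : 0 ≤ μ) (hc : 0 < c)
    (hθ : V11015.FS.PMeas θ n μ c) (δ T : ℝ) (hδ : 0 < δ) (hT : 0 ≤ T) : ∃ A : ℝ,
    ∀ t : ℝ, δ ≤ |t| → |t| ≤ T → Bound n (2 * (μ + 1)) A θ t ∧
      ∀ H Λ σ : ℝ, 1 ≤ H → 0 < Λ → ∀ (P P' : ℤ[X]) (d d' : ℕ), Small n H P d → Small n H P' d' →
        Predicted (multiple θ t P d) Λ σ (threshold (2 * (μ + 1)) A H Λ σ) →
        Predicted (multiple θ t P' d') Λ σ (threshold (2 * (μ + 1)) A H Λ σ) → Parallel P P' := by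
  obtain ⟨A, h⟩ := bound_of_meas hμ hc hθ δ T hδ hT
  exact ⟨A, fun t ht htT => ⟨h t ht htT, fun H Λ σ hH hΛ P P' d d' hP hP' hp hp' =>
    parallel_of_predicted (by linarith) (h t ht htT) hH hΛ hP hP' hp hp'⟩⟩

/-- **Finite-state prediction of the digits of `k ^ e P(e) / d` and `k ^ π P(π) / d`.**
(1) Let `n ≥ 0`, `η, δ > 0`, `T ≥ 0`. There is `A` such that for all real `t` with `δ ≤ |t| ≤ T` the bound
for the errors holds for the numbers `t P(e) / d`, `P` of degree at most `n`, with `μ = 2 (n + 1 + η)`; and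
for all `H ≥ 1`, `Λ > 0`, `σ` any two polynomials `P, P'` for which `t P(e) / d`, `t P'(e) / d'` are predicted
with less than `((log Λ - log (2 σ + log H)) / log μ - A) / 2` errors are proportional.
(2) For every `n` there is `μ > 1` such that the same holds with `π` in place of `e`.
(3) In particular, uniformly in `k = 1, …, K`, for the numbers `k ^ e P(e) / d` and `k ^ π P(π) / d`. -/
theorem result :
    (∀ (n : ℕ) (η δ T : ℝ), 0 < η → 0 < δ → 0 ≤ T → ∃ A : ℝ, ∀ t : ℝ, δ ≤ |t| → |t| ≤ T →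
      Bound n (2 * (n + 1 + η)) A (Real.exp 1) t ∧
      ∀ H Λ σ : ℝ, 1 ≤ H → 0 < Λ → ∀ (P P' : ℤ[X]) (d d' : ℕ), Small n H P d → Small n H P' d' →
        Predicted (multiple (Real.exp 1) t P d) Λ σ (threshold (2 * (n + 1 + η)) A H Λ σ) →
        Predicted (multiple (Real.exp 1) t P' d') Λ σ (threshold (2 * (n + 1 + η)) A H Λ σ) →
          Parallel P P') ∧
    (∀ n : ℕ, ∃ μ : ℝ, 1 < μ ∧ ∀ δ T : ℝ, 0 < δ → 0 ≤ T → ∃ A : ℝ, ∀ t : ℝ, δ ≤ |t| → |t| ≤ T →
      Bound n μ A Real.pi t ∧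
      ∀ H Λ σ : ℝ, 1 ≤ H → 0 < Λ → ∀ (P P' : ℤ[X]) (d d' : ℕ), Small n H P d → Small n H P' d' →
        Predicted (multiple Real.pi t P d) Λ σ (threshold μ A H Λ σ) →
        Predicted (multiple Real.pi t P' d') Λ σ (threshold μ A H Λ σ) → Parallel P P') ∧
    (∀ n K : ℕ, ∃ μ : ℝ, 1 < μ ∧ ∃ A : ℝ, ∀ k : ℕ, 1 ≤ k → k ≤ K →
      Bound n μ A Real.pi ((k : ℝ) ^ Real.pi)) ∧
    (∀ (n K : ℕ) (η : ℝ), 0 < η → ∃ A : ℝ, ∀ k : ℕ, 1 ≤ k → k ≤ K →
      Bound n (2 * (n + 1 + η)) A (Real.exp 1) ((k : ℝ) ^ Real.exp 1)) := by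
  have he : ∀ (n : ℕ) (η δ T : ℝ), 0 < η → 0 < δ → 0 ≤ T → ∃ A : ℝ, ∀ t : ℝ, δ ≤ |t| → |t| ≤ T →
      Bound n (2 * (n + 1 + η)) A (Real.exp 1) t ∧
      ∀ H Λ σ : ℝ, 1 ≤ H → 0 < Λ → ∀ (P P' : ℤ[X]) (d d' : ℕ), Small n H P d → Small n H P' d' →
        Predicted (multiple (Real.exp 1) t P d) Λ σ (threshold (2 * (n + 1 + η)) A H Λ σ) →
        Predicted (multiple (Real.exp 1) t P' d') Λ σ (threshold (2 * (n + 1 + η)) A H Λ σ) →
          Parallel P P' := by
    intro n η δ T hη hδ hT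
    obtain ⟨c, hc, h⟩ := W472.AC.e_measP n η hη
    have h1 := family (θ := Real.exp 1) (n := n) (μ := n + η) (by positivity) hc h δ T hδ hT
    have e1 : (n : ℝ) + η + 1 = n + 1 + η := by ring
    rw [e1] at h1
    exact h1
  have hpi : ∀ n : ℕ, ∃ μ : ℝ, 1 < μ ∧ ∀ δ T : ℝ, 0 < δ → 0 ≤ T → ∃ A : ℝ, ∀ t : ℝ, δ ≤ |t| →
      |t| ≤ T → Bound n μ A Real.pi t ∧
      ∀ H Λ σ : ℝ, 1 ≤ H → 0 < Λ → ∀ (P P' : ℤ[X]) (d d' : ℕ), Small n H P d → Small n H P' d' →
        Predicted (multiple Real.pi t P d) Λ σ (threshold μ A H Λ σ) →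
        Predicted (multiple Real.pi t P' d') Λ σ (threshold μ A H Λ σ) → Parallel P P' := by
    intro n
    obtain ⟨μ, c, hμ, hc, h⟩ := meas_pi n
    exact ⟨2 * (μ + 1), by linarith, fun δ T hδ hT => family hμ hc h δ T hδ hT⟩
  have hpow : ∀ (x : ℝ) (K k : ℕ), 0 ≤ x → 1 ≤ k → k ≤ K →
      1 ≤ |(k : ℝ) ^ x| ∧ |(k : ℝ) ^ x| ≤ (K : ℝ) ^ x := by
    intro x K k hx hk hkK
    have h1 : (1 : ℝ) ≤ k := by exact_mod_cast hk
    have h2 : (k : ℝ) ≤ K := by exact_mod_cast hkK
    have h3 : 1 ≤ (k : ℝ) ^ x := Real.one_le_rpow h1 hx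
    rw [abs_of_nonneg (by linarith)]
    exact ⟨h3, Real.rpow_le_rpow (by linarith) h2 hx⟩
  refine ⟨he, hpi, fun n K => ?_, fun n K η hη => ?_⟩
  · obtain ⟨μ, hμ, h⟩ := hpi n
    obtain ⟨A, hA⟩ := h 1 ((K : ℝ) ^ Real.pi) one_pos (by positivity)
    refine ⟨μ, hμ, A, fun k hk hkK => ?_⟩
    obtain ⟨h1, h2⟩ := hpow Real.pi K k Real.pi_pos.le hk hkK
    exact (hA _ h1 h2).1
  · obtain ⟨A, hA⟩ := he n η 1 ((K : ℝ) ^ Real.exp 1) hη one_pos (by positivity)
    refine ⟨A, fun k hk hkK => ?_⟩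
    obtain ⟨h1, h2⟩ := hpow (Real.exp 1) K k (Real.exp_pos 1).le hk hkK
    exact (hA _ h1 h2).1

end Pool.Agent.Results.MP_ee2255_nt.PredictionOfMultiples
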